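import Pool.Agent.W300.FT.Stm

/-!
# Mixtures and relabellings preserve the iid measure (task FT-MIX)
-/

set_option autoImplicit false

namespace Pool.Agent.W575.FT

open MeasureTheory ProbabilityTheory Pool.Agent.W300.FT

theorem measurable_mix {V : Type} (N : Set V) :
    Measurable (fun p : (V → unitInterval) × (V → unitInterval) => mix N p.1 p.2) := by
  classical
  refine measurable_pi_iff.2 fun u => ?_
  by_cases h : u ∈ N
  · have : (fun p : (V → unitInterval) × (V → unitInterval) => mix N p.1 p.2 u) =
        fun p => p.1 u := by
      funext p; simp [mix, h]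
    rw [this]
    exact (measurable_pi_apply u).comp measurable_fst
  · have : (fun p : (V → unitInterval) × (V → unitInterval) => mix N p.1 p.2 u) =
        fun p => p.2 u := by
      funext p; simp [mix, h]
    rw [this]
    exact (measurable_pi_apply u).comp measurable_snd

theorem mix_mp : S_MIX := by
  classical
  intro V N hV
  refine ⟨measurable_mix N, ?_⟩
  unfold PI
  refine Measure.eq_infinitePi _ fun s t ht => ?_
  rw [Measure.map_apply (measurable_mix N)
    (MeasurableSet.pi s.countable_toSet fun i _ => ht i)]
  have hpre : (fun p : (V → unitInterval) × (V → unitInterval) => mix N p.1 p.2) ⁻¹'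
      (Set.pi s t) = (Set.pi (s.filter (· ∈ N) : Finset V) t) ×ˢ
        (Set.pi (s.filter (· ∉ N) : Finset V) t) := by
    ext p
    simp only [Set.mem_preimage, Set.mem_pi, Set.mem_prod, Finset.coe_filter, Set.mem_ofPred_eq,
      Finset.mem_coe]
    constructor
    · intro h
      refine ⟨fun i hi => ?_, fun i hi => ?_⟩
      · have := h i hi.1
        simpa [mix, hi.2] using this
      · have := h i hi.1
        simpa [mix, hi.2] using this
    · rintro ⟨h1, h2⟩ i hi
      by_cases hN : i ∈ N
      · simpa [mix, hN] using h1 i ⟨hi, hN⟩
      · simpa [mix, hN] using h2 i ⟨hi, hN⟩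
  rw [hpre, Measure.prod_prod, Measure.infinitePi_pi _ (fun i _ => ht i),
    Measure.infinitePi_pi _ (fun i _ => ht i)]
  exact Finset.prod_filter_mul_prod_filter_not s (· ∈ N) _

theorem shift_mp : S_SHIFT := by
  classical
  intro V φ hV
  have hm : Measurable (fun (y : V → unitInterval) v => y (φ v)) :=
    measurable_pi_iff.2 fun v => measurable_pi_apply (φ v)
  refine ⟨hm, ?_⟩
  unfold PI
  refine Measure.eq_infinitePi _ fun s t ht => ?_
  rw [Measure.map_apply hm (MeasurableSet.pi s.countable_toSet fun i _ => ht i)]
  have hpre : (fun (y : V → unitInterval) v => y (φ v)) ⁻¹' (Set.pi s t) =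
      Set.pi (s.map φ.toEmbedding : Finset V) (fun j => t (φ.symm j)) := by
    ext y
    simp only [Set.mem_preimage, Set.mem_pi, Finset.mem_coe, Finset.mem_map_equiv]
    constructor
    · intro h i hi
      have := h (φ.symm i) hi
      simpa using this
    · intro h i hi
      have := h (φ i) (by simpa using hi)
      simpa using this
  rw [hpre, Measure.infinitePi_pi _ (fun i _ => ht _), Finset.prod_map]
  simp

end Pool.Agent.W575.FT
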